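import Mathlib
import Pool.Agent.H.MP_f9eabf_al.A

set_option autoImplicit false

namespace Pool.Agent.Results.MP_f9eabf_al.Four

def IsP {n : ℕ} (A : Matrix (Fin n) (Fin n) ℂ) : Prop :=
  ∀ (k : ℕ) (α : Fin (k + 1) → Fin n), StrictMono α →
    (A.submatrix α α).det.im = 0 ∧ 0 < (A.submatrix α α).det.re

def IsWSS {n : ℕ} (A : Matrix (Fin n) (Fin n) ℂ) : Prop :=
  ∀ (k : ℕ) (α β : Fin k → Fin n), StrictMono α → StrictMono β →
    (Finset.univ.image α ∩ Finset.univ.image β).card + 1 = k →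
    ((A.submatrix α β).det * (A.submatrix β α).det).im = 0 ∧
      0 ≤ ((A.submatrix α β).det * (A.submatrix β α).det).re

def IsOmega {n : ℕ} (A : Matrix (Fin n) (Fin n) ℂ) : Prop :=
  ∀ (k m : ℕ) (α : Fin (k + 1) → Fin n) (β : Fin (m + 1) → Fin n), StrictMono α → StrictMono β →
    Set.range β ⊆ Set.range α →
    ∃ a b : ℝ, IsLeast {x : ℝ | (x : ℂ) ∈ spectrum ℂ (A.submatrix α α)} a ∧
      IsLeast {x : ℝ | (x : ℂ) ∈ spectrum ℂ (A.submatrix β β)} b ∧ a ≤ b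

theorem result :
    IsGreatest {N : ℕ | ∀ n : ℕ, 1 ≤ n → n ≤ N → ∀ A : Matrix (Fin n) (Fin n) ℂ,
      IsP A → IsWSS A → IsOmega A → (∀ x : ℝ, (x : ℂ) ∈ spectrum ℂ A → 0 ≤ x) →
      ∀ z ∈ spectrum ℂ A, 0 < z.re} 4 := by
  refine ⟨fun n h1 h4 A hP hS _ _ z hz => Pool.Agent.H.MP_f9eabf_al.stable h1 h4 hP hS z hz,
    fun N hN => ?_⟩
  by_contra hc
  obtain ⟨z, hz, hz'⟩ := Pool.Agent.H.MP_25f4f2_al.A_unstable
  have := hN 5 (by norm_num) (by omega) Pool.Agent.H.MP_25f4f2_al.A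
    (fun k α h => Pool.Agent.H.MP_25f4f2_al.A_pos _ α h)
    (fun k α β h h' hc => ⟨(Pool.Agent.H.MP_25f4f2_al.A_sign k α β h h' hc).1,
      (Pool.Agent.H.MP_25f4f2_al.A_sign k α β h h' hc).2.le⟩)
    Pool.Agent.H.MP_25f4f2_al.A_tau Pool.Agent.H.MP_25f4f2_al.A_nonneg z hz
  linarith

end Pool.Agent.Results.MP_f9eabf_al.Four
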